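import Pool.Agent.Y211.PY.Stm

/-!
Project Y211-PY, task OX: basic properties of the ring of regular functions.
-/

set_option autoImplicit false

universe u

namespace Pool.Agent.Y484.PY.OX

open Pool.Agent.Y211.PY

section

variable {K A : Type u} [Field K] [CommRing A] [IsDomain A] [Algebra K A]

/-- in a field where `-1` is not a sum of squares, a vanishing sum of squares has zero terms -/
theorem sum_sq_zero (hK : ¬ IsSumSq (-1 : K)) {ι : Type*} (s : Finset ι) (x : ι → K)
    (h : ∑ i ∈ s, x i ^ 2 = 0) : ∀ i ∈ s, x i = 0 := by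
  classical
  intro i hi
  by_contra hne
  apply hK
  have h1 : ∑ j ∈ s.erase i, x j ^ 2 + x i ^ 2 = 0 := by
    rw [Finset.sum_erase_add _ _ hi]; exact h
  have h2 : (-1 : K) = ∑ j ∈ s.erase i, (x j / x i) * (x j / x i) := by
    have h3 : ∑ j ∈ s.erase i, (x j / x i) * (x j / x i) =
        (∑ j ∈ s.erase i, x j ^ 2) / x i ^ 2 := by
      rw [Finset.sum_div]
      refine Finset.sum_congr rfl fun j _ => ?_
      field_simp
    rw [h3, eq_neg_of_add_eq_zero_left h1]
    field_simp
  rw [h2]
  exact IsSumSq.sum_mul_self _ _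

theorem nonvan_le (hne : Nonempty (A →ₐ[K] K)) : nonvan K A ≤ nonZeroDivisors A := by
  obtain ⟨φ⟩ := hne
  refine le_nonZeroDivisors_of_noZeroDivisors fun h0 => ?_
  exact h0 φ (map_zero φ)

/-- extension of a point to the ring of regular functions -/
noncomputable def ext (φ : A →ₐ[K] K) : RegFun K A →ₐ[K] K :=
  IsLocalization.liftAlgHom (M := nonvan K A) (f := φ) (fun y => isUnit_iff_ne_zero.2 (y.2 φ))

omit [IsDomain A] in
theorem ext_algebraMap (φ : A →ₐ[K] K) (a : A) :
    ext φ (algebraMap A (RegFun K A) a) = φ a := by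
  simp [ext]

theorem isUnit_of (x : RegFun K A) (h : ∀ ψ : RegFun K A →ₐ[K] K, ψ x ≠ 0) : IsUnit x := by
  obtain ⟨⟨a, s⟩, hx⟩ := IsLocalization.surj (nonvan K A) x
  simp only at hx
  have ha : a ∈ nonvan K A := by
    intro φ h0
    have h1 := congrArg (ext φ) hx
    rw [map_mul, ext_algebraMap, ext_algebraMap, h0] at h1
    rcases mul_eq_zero.1 h1 with h2 | h2
    · exact h _ h2
    · exact s.2 φ h2
  have hu : IsUnit (algebraMap A (RegFun K A) a) :=
    IsLocalization.map_units (RegFun K A) (⟨a, ha⟩ : nonvan K A)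
  rw [← hx] at hu
  exact isUnit_of_mul_isUnit_left hu

theorem exists_ker [Algebra.FiniteType K A] (hK : ¬ IsSumSq (-1 : K))
    (m : Ideal (RegFun K A)) (hm : m.IsMaximal) :
    ∃ ψ : RegFun K A →ₐ[K] K, RingHom.ker ψ = m := by
  classical
  have hA : IsNoetherianRing A := Algebra.FiniteType.isNoetherianRing K A
  have hB : IsNoetherianRing (RegFun K A) :=
    IsLocalization.isNoetherianRing (nonvan K A) (RegFun K A) hA
  obtain ⟨s, hs⟩ := (isNoetherianRing_iff_ideal_fg _).1 hB m
  have hmem : ∀ f ∈ s, f ∈ m := fun f hf => hs ▸ Submodule.subset_span hf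
  have hx : ∑ f ∈ s, f ^ 2 ∈ m := by
    refine Ideal.sum_mem _ fun f hf => ?_
    rw [pow_two]
    exact Ideal.mul_mem_left _ _ (hmem f hf)
  have hnu : ¬ IsUnit (∑ f ∈ s, f ^ 2) := fun hu =>
    hm.ne_top (Ideal.eq_top_of_isUnit_mem _ hx hu)
  have : ∃ ψ : RegFun K A →ₐ[K] K, ψ (∑ f ∈ s, f ^ 2) = 0 := by
    by_contra hcon
    push Not at hcon
    exact hnu (isUnit_of _ hcon)
  obtain ⟨ψ, hψ⟩ := this
  rw [map_sum] at hψ
  simp only [map_pow] at hψ
  have h0 := sum_sq_zero hK s (fun f => ψ f) hψ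
  refine ⟨ψ, ?_⟩
  have hle : m ≤ RingHom.ker ψ := by
    rw [← hs]
    refine Submodule.span_le.2 fun f hf => ?_
    exact h0 f hf
  exact (hm.eq_of_le (RingHom.ker_ne_top _) hle).symm

theorem ox_rl [Algebra.FiniteType K A] (hK : ¬ IsSumSq (-1 : K)) : Rl (RegFun K A) := by
  intro m hm k x hx i
  obtain ⟨ψ, rfl⟩ := exists_ker hK m hm
  rw [RingHom.mem_ker, map_sum] at hx
  simp only [map_pow] at hx
  exact sum_sq_zero hK Finset.univ (fun i => ψ (x i)) hx i (Finset.mem_univ i)

theorem ox_reg [Algebra.FiniteType K A] (hK : ¬ IsSumSq (-1 : K)) (hR : RegPts K A) :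
    Reg (RegFun K A) := by
  intro m hm
  obtain ⟨ψ, hψ⟩ := exists_ker hK m hm
  have hp : (m.comap (algebraMap A (RegFun K A))).IsPrime := inferInstance
  obtain ⟨h1, h2⟩ := hR (m.comap (algebraMap A (RegFun K A)))
    ⟨ψ.comp (IsScalarTower.toAlgHom K A (RegFun K A)), by
      ext a
      rw [← hψ]
      simp [RingHom.mem_ker]⟩
  have e := IsLocalization.localizationLocalizationAtPrimeIsoLocalization (nonvan K A) m
  have e' := e.toRingEquiv
  exact ⟨IsRegularLocalRing.of_ringEquiv e', (ringKrullDim_eq_of_ringEquiv e').symm.trans h2⟩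

theorem ox_frac (hne : Nonempty (A →ₐ[K] K)) [IsDomain (RegFun K A)] :
    Nonempty (FractionRing (RegFun K A) ≃ₐ[K] FractionRing A) := by
  have hu : ∀ y : nonvan K A, IsUnit (algebraMap A (FractionRing A) y) := by
    intro y
    rw [isUnit_iff_ne_zero]
    exact IsFractionRing.to_map_ne_zero_of_mem_nonZeroDivisors (nonvan_le hne y.2)
  let _ : Algebra (RegFun K A) (FractionRing A) :=
    (IsLocalization.lift (M := nonvan K A) (g := algebraMap A (FractionRing A)) hu).toAlgebra
  have h1 : IsScalarTower A (RegFun K A) (FractionRing A) :=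
    IsScalarTower.of_algebraMap_eq fun a => by
      rw [RingHom.algebraMap_toAlgebra, IsLocalization.lift_eq]
  have h2 : IsScalarTower K (RegFun K A) (FractionRing A) :=
    IsScalarTower.of_algebraMap_eq fun a => by
      rw [IsScalarTower.algebraMap_apply K A (RegFun K A), ← IsScalarTower.algebraMap_apply
        A (RegFun K A) (FractionRing A), IsScalarTower.algebraMap_apply K A (FractionRing A)]
  have h3 : IsFractionRing (RegFun K A) (FractionRing A) :=
    IsFractionRing.isFractionRing_of_isDomain_of_isLocalization (nonvan K A) (RegFun K A)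
      (FractionRing A)
  exact ⟨(FractionRing.algEquiv (RegFun K A) (FractionRing A)).restrictScalars K⟩

end

theorem t : S_OX.{u} := by
  intro K A _ _ _ _ _ hK hR hne
  have hdom : IsDomain (RegFun K A) := IsLocalization.isDomain_localization (nonvan_le hne)
  have hA : IsNoetherianRing A := Algebra.FiniteType.isNoetherianRing K A
  exact ⟨hdom, IsLocalization.isNoetherianRing (nonvan K A) (RegFun K A) hA, ox_reg hK hR,
    ox_rl hK, fun m hm => exists_ker hK m hm, ox_frac hne⟩

end Pool.Agent.Y484.PY.OX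

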